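import Mathlib
import Pool.Agent.X292.JB.Single
import Pool.Agent.TH118.SG.Group
import Pool.Agent.Y127.C.Uni

/-!
# Lie algebras of symplectic operators with a large nilpotent element
-/

set_option linter.unusedSectionVars false

namespace Pool.Agent.X292.SP

open Module Finset Function Pool.Agent.TH125.Gal Pool.Agent.TH118.IS Pool.Agent.Y126.JB
  Pool.Agent.Y126.MU Pool.Agent.TH118.SG Pool.Agent.X292.JB

section types

variable {K : Type*} [Field K] [CharZero K] {T : Type*} [AddCommGroup T] [Module K T]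
  [FiniteDimensional K T]

/-- The spaces `K_j` of `M` and of `M V`, `V` a unit which commutes with `M`. -/
theorem Kj_unit {M V : End K T} (hV : IsUnit V) (hc : Commute M V) (j : ℕ) :
    Kj (M * V) j = Kj M j := by
  obtain ⟨u, rfl⟩ := hV
  have hc' : Commute M (↑u⁻¹ : End K T) := hc.units_inv_right
  have h1 : ∀ x : T, (M * (u : End K T)) x = 0 ↔ M x = 0 := by
    intro x
    rw [hc.eq, Module.End.mul_apply]
    constructor
    · intro h
      have h2 : ((↑u⁻¹ : End K T) * (u : End K T)) (M x) = 0 := by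
        rw [Module.End.mul_apply, h, map_zero]
      rwa [Units.inv_mul, Module.End.one_apply] at h2
    · intro h
      rw [h, map_zero]
  ext x
  rw [mem_Kj, mem_Kj, h1]
  refine and_congr_right fun _ => ?_
  rw [hc.mul_pow]
  constructor
  · rintro ⟨y, hy⟩
    exact ⟨((u : End K T) ^ j) y, by rw [← Module.End.mul_apply, hy]⟩
  · rintro ⟨y, hy⟩
    refine ⟨((↑u⁻¹ : End K T) ^ j) y, ?_⟩
    rw [← Module.End.mul_apply, mul_assoc, ← Units.val_pow_eq_pow_val, ← Units.val_pow_eq_pow_val,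
      inv_pow, Units.mul_inv, mul_one, hy]

theorem typ2_unit {M V : End K T} (hV : IsUnit V) (hc : Commute M V) {D : ℕ} (ht : Typ2 M D) :
    Typ2 (M * V) D := by
  obtain ⟨k, hk⟩ := ht.nil
  refine ⟨ht.odd, ⟨k, by rw [hc.mul_pow, hk, zero_mul]⟩, ?_, ?_, ?_⟩
  · rw [Kj_unit hV hc, Kj_unit hV hc]
    exact ht.one
  · intro j h2 hj
    rw [Kj_unit hV hc, Kj_unit hV hc]
    exact ht.even j h2 hj
  · rw [Kj_unit hV hc, Kj_unit hV hc]
    exact ht.triv

theorem pow_unit {M V : End K T} (hV : IsUnit V) (hc : Commute M V) (n : ℕ) :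
    (M * V) ^ n = 0 ↔ M ^ n = 0 := by
  rw [hc.mul_pow]
  constructor
  · intro h2
    obtain ⟨u, hu⟩ := hV.pow n
    rw [← hu] at h2
    have h3 := congrArg (fun z => z * (↑u⁻¹ : End K T)) h2
    simpa [mul_assoc] using h3
  · intro h
    rw [h, zero_mul]

end types

section lg

variable {K : Type} [Field K] [CharZero K] {T : Type} [AddCommGroup T] [Module K T]

/-- The logarithm is a unit times `U - 1`. -/
theorem lgC_eq {U : End K T} {n : ℕ} (hn : (U - 1) ^ n = 0) :
    ∃ V : End K T, IsUnit V ∧ Commute (U - 1) V ∧ Y127.C.lg n U = (U - 1) * V := by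
  have hn2 : (U - 1) ^ (n + 2) = 0 := by rw [pow_add, hn, zero_mul]
  rw [Y127.C.lg_eq hn hn2]
  obtain ⟨M, hM⟩ : ∃ M, M = U - 1 := ⟨_, rfl⟩
  obtain ⟨R, hR⟩ : ∃ R : End K T, R = ∑ i ∈ range n, Y127.C.lc K (i + 2) • M ^ i := ⟨_, rfl⟩
  have hQ : Y127.C.lg (n + 2) U = M * (1 + M * R) := by
    rw [Y127.C.lg, Finset.sum_range_succ', Y127.C.lc_zero, zero_smul, add_zero,
      Finset.sum_range_succ', zero_add, Y127.C.lc_one, one_smul, pow_one, ← hM, mul_add, mul_one,
      add_comm, hR, Finset.mul_sum, Finset.mul_sum]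
    congr 1
    refine Finset.sum_congr rfl fun i _ => ?_
    rw [mul_smul_comm, mul_smul_comm, ← pow_succ', ← pow_succ']
  have hc : Commute M R := by
    rw [hR]
    refine Commute.sum_right _ _ _ fun i _ => ?_
    exact (Commute.pow_right (Commute.refl M) i).smul_right _
  rw [← hM]
  refine ⟨1 + M * R, ?_, ?_, hQ⟩
  · have h1 : IsNilpotent (M * R) := ⟨n, by rw [hc.mul_pow, hM, hn, zero_mul]⟩
    exact h1.isUnit_one_add
  · exact (Commute.one_right M).add_right ((Commute.refl M).mul_right hc)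

end lg

section gen

variable {K : Type} [Field K] [CharZero K] [IsAlgClosed K] {T : Type} [AddCommGroup T]
  [Module K T] [FiniteDimensional K T] {G : Type} [Group G]
  {B : T →ₗ[K] T →ₗ[K] K} {ρ : G →* (T →ₗ[K] T)} {χ : G →* K} {L : Submodule K (End K T)}

/-- **One Jordan block.** -/
theorem single_gen (halt : ∀ v, B v v = 0) (hnd : ∀ u, (∀ v, B u v = 0) → u = 0)
    (hSI : Pool.Agent.TH125.Gal.SI ρ)
    (hconj : ∀ g : G, ∀ Y ∈ L, ρ g * Y * ρ g⁻¹ ∈ L)
    (hbr : ∀ Y ∈ L, ∀ Z ∈ L, Y * Z - Z * Y ∈ L)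
    (hsp : ∀ Y ∈ L, ∀ u w, B (Y u) w + B u (Y w) = 0)
    {e : End K T} (heL : e ∈ L) {D : ℕ} (hD0 : 0 < D) (hdim : finrank K T = D + 1)
    (heD1 : e ^ (D + 1) = 0) (heD : e ^ D ≠ 0)
    (hF : D = 1 ∨ ∃ φ : G, ∀ a c : K, {b | ∃ t : T, t ≠ 0 ∧ ρ φ t = b • t} ≠
      {b | ∃ i ≤ D, b = a * c ^ i}) (x y : T) :
    Pool.Agent.H204R3.SP.SS B x y ∈ L := by
  classical
  have hT : ∃ z : T, z ≠ 0 := by
    by_contra hcon
    push Not at hcon
    apply heD
    exact LinearMap.ext fun z => hcon _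
  have hX := SI_conv hT hSI
  obtain ⟨f₁, hf₁, hf2⟩ := jm hbr (fun y hy h => trace_nondeg hconj hbr hX hnd hsp hy h) heL
    ⟨D + 1, heD1⟩
  obtain ⟨h, hh₁⟩ : ∃ h, h = ad K e f₁ := ⟨_, rfl⟩
  have hhe : ad K h e = (2 : K) • e := by
    have h1 : ad K h e = -ad K e h := by rw [ad_apply, ad_apply]; abel
    rw [h1, hh₁, hf2, neg_smul, neg_neg]
  obtain ⟨f, hf, hh, hhf⟩ := exists_f hh₁ hhe hbr heL hf₁ ⟨D + 1, heD1⟩
  have hhL : h ∈ L := by rw [hh]; exact hbr e heL f hf
  obtain ⟨w, hp⟩ := exists_prin_of hh hhe hhf hdim heD heD1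
  have htop : e ^ D ∈ L := by
    rcases hF with h1 | ⟨φ, hφ⟩
    · rw [h1, pow_one]
      exact heL
    · by_cases hle : L ≤ Submodule.span K {e, h, f}
      · exfalso
        have heq : L = Submodule.span K {e, h, f} := by
          refine le_antisymm hle ?_
          rw [Submodule.span_le]
          rintro z hz
          simp only [Set.mem_insert_iff, Set.mem_singleton_iff] at hz
          rcases hz with rfl | rfl | rfl
          · exact heL
          · exact hhL
          · exact hf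
        have hinv : ρ φ⁻¹ * ρ φ = 1 := by rw [← map_mul, inv_mul_cancel, map_one]
        obtain ⟨x', y', c, v, e1, e2, e3⟩ := hp.exists_nilp hD0 (g := ρ φ) (g' := ρ φ⁻¹) hinv
          (fun X hX => by rw [← heq] at hX ⊢; exact hconj φ X hX)
        obtain ⟨a, ha⟩ := charpoly_geom e1 e2 hdim e3
        apply hφ a c
        ext b
        rw [Set.mem_ofPred_eq, Set.mem_ofPred_eq]
        have h5 : (∃ t : T, t ≠ 0 ∧ ρ φ t = b • t) ↔ Module.End.HasEigenvalue (ρ φ) b := by
          constructor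
          · rintro ⟨t, ht, h6⟩
            exact Module.End.hasEigenvalue_of_hasEigenvector
              ⟨Module.End.mem_eigenspace_iff.2 h6, ht⟩
          · intro h6
            obtain ⟨t, ht⟩ := h6.exists_hasEigenvector
            exact ⟨t, ht.2, ht.apply_eq_smul⟩
        rw [h5, Module.End.hasEigenvalue_iff_isRoot_charpoly, ha, Polynomial.IsRoot,
          Polynomial.eval_prod, Finset.prod_eq_zero_iff]
        constructor
        · rintro ⟨i, hi, h6⟩
          rw [Polynomial.eval_sub, Polynomial.eval_X, Polynomial.eval_C, sub_eq_zero] at h6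
          exact ⟨i, Nat.lt_succ_iff.1 (mem_range.1 hi), h6⟩
        · rintro ⟨i, hi, h6⟩
          refine ⟨i, mem_range.2 (Nat.lt_succ_of_le hi), ?_⟩
          rw [Polynomial.eval_sub, Polynomial.eval_X, Polynomial.eval_C, h6, sub_self]
      · obtain ⟨k, hk2, hkD, hkL⟩ := hp.exists_pow (hsp e heL) (hsp h hhL) hnd hbr hsp hD0 heL hhL
          hle
        exact hp.top_of_pow (hsp e heL) (hsp h hhL) hnd halt hbr hsp hf hk2 hkD hkL
  exact hp.full_of_top (hsp e heL) (hsp h hhL) (hsp f hf) hnd halt hbr hf htop hsp x y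

/-- **Jordan blocks of size one and of even size.** -/
theorem even_gen (halt : ∀ v, B v v = 0) (hnd : ∀ u, (∀ v, B u v = 0) → u = 0)
    (hB : ∀ g x y, B (ρ g x) (ρ g y) = χ g * B x y)
    (hSI : Pool.Agent.TH125.Gal.SI ρ)
    (hconj : ∀ g : G, ∀ Y ∈ L, ρ g * Y * ρ g⁻¹ ∈ L)
    (hbr : ∀ Y ∈ L, ∀ Z ∈ L, Y * Z - Z * Y ∈ L)
    (hsp : ∀ Y ∈ L, ∀ u w, B (Y u) w + B u (Y w) = 0)
    {e : End K T} (heL : e ∈ L) {D : ℕ} (ht : Typ2 e D) (x y : T) :
    Pool.Agent.H204R3.SP.SS B x y ∈ L := by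
  have hT : ∃ z : T, z ≠ 0 := by
    by_contra hcon
    push Not at hcon
    apply ht.triv
    ext z
    rw [hcon z]
    exact ⟨fun _ => Submodule.zero_mem _, fun _ => Submodule.zero_mem _⟩
  have hX := SI_conv hT hSI
  exact full_of_typ2 (R := ρ) (χ := χ) halt hnd hB hconj hbr hsp hX heL ht x y

end gen

end Pool.Agent.X292.SP
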