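import Pool.Agent.X292.SP.Iso
import Pool.Agent.X292.SP.Gen
import Pool.Agent.Y127.C.Eich

/-!
# Members of symplectic type with the whole symplectic Lie algebra
-/

set_option linter.unusedSectionVars false

namespace Pool.Agent.X292.SP

open Module Finset Function Pool.Agent.TH125.Gal Pool.Agent.Y127.G Pool.Agent.Y127.C

section pow

variable {K : Type} [Field K] [CharZero K] {T : Type} [AddCommGroup T] [Module K T]
  {B : T →ₗ[K] T →ₗ[K] K}

/-- powers of the adjoint operator -/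
theorem adL_pow (J X : Module.End K T) (n : ℕ) : (adL J ^ n) X =
    ∑ m ∈ range (n + 1), ((n.choose m : K) * (-1) ^ (n - m)) • (J ^ m * X * J ^ (n - m)) := by
  have hc : Commute (LinearMap.mulLeft K J : Module.End K (Module.End K T))
      (-LinearMap.mulRight K J : Module.End K (Module.End K T)) := by
    have h0 : Commute (LinearMap.mulLeft K J : Module.End K (Module.End K T))
        (LinearMap.mulRight K J : Module.End K (Module.End K T)) := by
      apply LinearMap.ext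
      intro Y
      simp only [Module.End.mul_apply, LinearMap.mulLeft_apply, LinearMap.mulRight_apply]
      rw [mul_assoc]
    exact h0.neg_right
  have h1 : adL J = (LinearMap.mulLeft K J : Module.End K (Module.End K T)) +
      (-LinearMap.mulRight K J : Module.End K (Module.End K T)) := by
    rw [← sub_eq_add_neg]
    rfl
  rw [h1, hc.add_pow, LinearMap.sum_apply]
  refine Finset.sum_congr rfl fun m _ => ?_
  have h2 : ((n.choose m : ℕ) : Module.End K (Module.End K T)) X = (n.choose m : K) • X := by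
    rw [← Nat.smul_one_eq_cast, LinearMap.smul_apply, Module.End.one_apply, Nat.cast_smul_eq_nsmul]
  have h3 : ∀ (j : ℕ) (Y : Module.End K T),
      ((-LinearMap.mulRight K J : Module.End K (Module.End K T)) ^ j) Y =
      ((-1 : K) ^ j) • (Y * J ^ j) := by
    intro j
    induction j with
    | zero => intro Y; simp
    | succ j ih =>
      intro Y
      rw [pow_succ', Module.End.mul_apply, ih, map_smul, LinearMap.neg_apply,
        LinearMap.mulRight_apply, mul_assoc, ← pow_succ, pow_succ (-1 : K), mul_smul, neg_one_smul]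
  have h4 : ∀ (j : ℕ) (Y : Module.End K T),
      ((LinearMap.mulLeft K J : Module.End K (Module.End K T)) ^ j) Y = J ^ j * Y := by
    intro j
    induction j with
    | zero => intro Y; simp
    | succ j ih =>
      intro Y
      rw [pow_succ', Module.End.mul_apply, ih, LinearMap.mulLeft_apply, ← mul_assoc, ← pow_succ']
  rw [Module.End.mul_apply, Module.End.mul_apply, h2, map_smul, h3, map_smul, map_smul, h4,
    smul_smul, mul_assoc]

theorem adL_zero {J : Module.End K T} {D : ℕ} (h : J ^ D = 0) (X : Module.End K T) :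
    (adL J ^ (2 * D)) X = 0 := by
  rw [adL_pow]
  refine Finset.sum_eq_zero fun m hm => ?_
  rcases le_or_gt D m with h1 | h1
  · obtain ⟨r, rfl⟩ := Nat.exists_eq_add_of_le h1
    rw [pow_add, h, zero_mul, zero_mul, zero_mul, smul_zero]
  · obtain ⟨r, hr⟩ : ∃ r, 2 * D - m = D + r := ⟨D - m, by omega⟩
    rw [hr, pow_add J, h, zero_mul, mul_zero, smul_zero]

theorem adL_mid {J : Module.End K T} {D : ℕ} (h : J ^ (D + 1) = 0) (X : Module.End K T) :
    (adL J ^ (2 * D)) X = (((2 * D).choose D : K) * (-1) ^ D) • (J ^ D * X * J ^ D) := by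
  rw [adL_pow, Finset.sum_eq_single D]
  · rw [show 2 * D - D = D by omega]
  · intro m hm hmD
    rcases lt_or_gt_of_ne hmD with h1 | h1
    · obtain ⟨r, hr⟩ : ∃ r, 2 * D - m = D + 1 + r := ⟨D - m - 1, by omega⟩
      rw [hr, pow_add J, h, zero_mul, mul_zero, smul_zero]
    · obtain ⟨r, rfl⟩ := Nat.exists_eq_add_of_le (Nat.succ_le_of_lt h1)
      rw [Nat.succ_eq_add_one, pow_add J (D + 1), h, zero_mul, zero_mul, zero_mul, smul_zero]
  · intro hD
    exact absurd (mem_range.2 (by omega)) hD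

/-- a nilpotent operator is a derivation of the form only with the factor zero -/
theorem der_nil (ha : ∀ x y, B x y = -B y x) (hT : ∃ x : T, x ≠ 0) {J : Module.End K T} {n : ℕ}
    (hn : J ^ n = 0) (hnd : ∀ x, (∀ y, B x y = 0) → x = 0) {a : K}
    (h : ∀ x y, B (J x) y + B x (J y) = a * B x y) : a = 0 := by
  have h1 : ∀ m x y, B ((J ^ m) x) y = B x (((a • 1 - J : Module.End K T) ^ m) y) := by
    intro m
    induction m with
    | zero => intro x y; rfl
    | succ m ih =>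
      intro x y
      have h2 := h ((J ^ m) x) y
      have h3 := ih x ((a • 1 - J : Module.End K T) y)
      rw [pow_succ', Module.End.mul_apply, pow_succ, Module.End.mul_apply, ← h3,
        LinearMap.sub_apply, LinearMap.smul_apply, Module.End.one_apply, map_sub, map_smul,
        smul_eq_mul]
      linear_combination h2
  have h2 : IsNilpotent (a • 1 - J : Module.End K T) := by
    refine ⟨n, LinearMap.ext fun y => hnd _ fun x => ?_⟩
    rw [ha, ← h1, hn, LinearMap.zero_apply, map_zero, LinearMap.zero_apply, neg_zero]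
  have h3 : Commute (a • 1 - J : Module.End K T) J :=
    Commute.sub_left ((Commute.one_left J).smul_left a) (Commute.refl J)
  have h4 : IsNilpotent (a • 1 : Module.End K T) := by
    have h5 := h3.isNilpotent_add h2 ⟨n, hn⟩
    rwa [sub_add_cancel] at h5
  obtain ⟨m, hm⟩ := h4
  obtain ⟨x, hx⟩ := hT
  rw [smul_pow, one_pow] at hm
  have h5 := LinearMap.congr_fun hm x
  rw [LinearMap.smul_apply, Module.End.one_apply, LinearMap.zero_apply] at h5
  exact eq_zero_of_pow_eq_zero ((smul_eq_zero.1 h5).resolve_right hx)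

end pow

variable {K : Type} [Field K] [CharZero K] {Γ : Type} [Group Γ] {ι : Type}
  {N : ι → FRep K Γ} {t t' : ι}

/-- A member of symplectic type, with the whole symplectic Lie algebra. -/
structure SFul (N : ι → FRep K Γ) (t : ι) extends Frm N t where
  al : ∀ x y, B x y = -B y x
  nd : ∀ x, (∀ y, B x y = 0) → x = 0
  si : SI (N t).ρ
  ne : ∃ x : (N t).V, x ≠ 0
  all : ∀ x y, ∃ D ∈ GG N, ∃ a : K, D t = oo B (-1) x y + a • 1

section ful

variable (o : SFul N t) (o' : SFul N t')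

/-- **A nonzero ideal is everything.** -/
theorem SFul.ideal {M : Submodule K (∀ i, (N i).V →ₗ[K] (N i).V)} (hM1 : M ≤ GG1 N)
    (hMi : ∀ D ∈ GG N, ∀ D' ∈ M, brk D D' ∈ M) (hne : ∃ D ∈ M, D t ≠ 0) (x y : (N t).V) :
    ∃ D ∈ M, D t = oo o.B (-1) x y := by
  obtain ⟨D0, hD0, hne⟩ := hne
  refine simple_sp (a := res M t) o.al o.nd ?_ ?_ (A := D0 t) ⟨D0, hD0, rfl⟩ hne x y
  · rintro _ ⟨D, hD, rfl⟩
    exact o.skew (hM1 hD)
  · rintro u v _ ⟨D, hD, rfl⟩
    obtain ⟨D', hD', a, ha⟩ := o.all u v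
    refine ⟨brk D' D, hMi D' hD' D hD, ?_⟩
    change brk D' D t = _
    rw [brk_eq_br, ha, br_scalar_left]
    rfl

theorem SFul.full (x y : (N t).V) : ∃ D ∈ GG1 N, D t = oo o.B (-1) x y := by
  refine o.ideal le_rfl (fun D hD D' hD' => brk_mem1 hD (GG1_le hD')) ?_ x y
  obtain ⟨u, v, hu⟩ := exists_br_ne' o.al o.nd o.ne
  obtain ⟨D, hD, a, ha⟩ := o.all u u
  obtain ⟨D', hD', a', ha'⟩ := o.all v v
  refine ⟨brk D D', brk_mem1 hD hD', ?_⟩
  rw [brk_eq_br, ha, ha', br_scalar]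
  exact hu

theorem SFul.good_all {a : ι} (h : Good N t a) (x y : (N t).V) :
    ∃ D ∈ GG1 N, D a = 0 ∧ D t = oo o.B (-1) x y := by
  obtain ⟨D0, hD0, ha, ht⟩ := h
  obtain ⟨D, hD, hDt⟩ := o.ideal (M := kil N {a}) (fun D hD => hD.1)
    (fun D hD D' hD' => kil_brk hD hD')
    ⟨D0, ⟨hD0, fun b hb => by rw [Set.mem_singleton_iff.1 hb]; exact ha⟩, ht⟩ x y
  exact ⟨D, hD.1, hD.2 a rfl, hDt⟩

/-- **Goursat.** -/
theorem SFul.good_finset (S : Finset ι) (h : ∀ a ∈ S, Good N t a) (x y : (N t).V) :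
    ∃ D ∈ GG1 N, (∀ a ∈ S, D a = 0) ∧ D t = oo o.B (-1) x y := by
  classical
  induction S using Finset.induction_on generalizing x y with
  | empty =>
    obtain ⟨D, hD, hDt⟩ := o.full x y
    exact ⟨D, hD, fun a ha => absurd ha (Finset.notMem_empty a), hDt⟩
  | insert b S hb ih =>
    have h1 : ∀ x y, ∃ D ∈ GG1 N, (∀ a ∈ S, D a = 0) ∧ D t = oo o.B (-1) x y := fun x y =>
      ih (fun a ha => h a (Finset.mem_insert_of_mem ha)) x y
    have h2 : ∀ x y, ∃ D ∈ GG1 N, D b = 0 ∧ D t = oo o.B (-1) x y := fun x y =>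
      o.good_all (h b (Finset.mem_insert_self b S)) x y
    obtain ⟨u, v, hu⟩ := exists_br_ne' o.al o.nd o.ne
    obtain ⟨D, hD, hDS, hDt⟩ := h1 u u
    obtain ⟨D', hD', hDb, hDt'⟩ := h2 v v
    have hm : brk D D' ∈ kil N ((insert b S : Finset ι) : Set ι) := by
      refine ⟨brk_mem1 (GG1_le hD) (GG1_le hD'), fun a ha => ?_⟩
      rcases Finset.mem_insert.1 (Finset.mem_coe.1 ha) with rfl | ha
      · rw [brk_eq_br, hDb, br_zero_right]
      · rw [brk_eq_br, hDS a ha, br_zero_left]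
    have hne : brk D D' t ≠ 0 := by
      rw [brk_eq_br, hDt, hDt']
      exact hu
    obtain ⟨D'', hD'', hDt''⟩ := o.ideal (M := kil N ((insert b S : Finset ι) : Set ι))
      (fun D hD => hD.1) (fun D hD D' hD' => kil_brk hD hD') ⟨brk D D', hm, hne⟩ x y
    exact ⟨D'', hD''.1, fun a ha => hD''.2 a (Finset.mem_coe.2 ha), hDt''⟩

/-- the dimension criterion for forms -/
theorem SFul.good_of_lt {a : ι} (W : Submodule K (Module.End K (N a).V))
    (hW : ∀ D ∈ GG1 N, D a ∈ W) (hdim : finrank K W < finrank K (SkewS o.B)) : Good N t a := by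
  by_contra hcon
  have h0 : ∀ D ∈ GG1 N, D a = 0 → D t = 0 := by
    intro D hD ha
    by_contra ht
    exact hcon ⟨D, hD, ha, ht⟩
  let f : GG1 N →ₗ[K] Module.End K (N a).V :=
    (LinearMap.proj a : (∀ i, (N i).V →ₗ[K] (N i).V) →ₗ[K] _) ∘ₗ (GG1 N).subtype
  let g : GG1 N →ₗ[K] Module.End K (N t).V :=
    (LinearMap.proj t : (∀ i, (N i).V →ₗ[K] (N i).V) →ₗ[K] _) ∘ₗ (GG1 N).subtype
  obtain ⟨Φ, hΦ⟩ := exists_factor f g fun x hx => h0 x.1 x.2 hx
  have hΦ' : ∀ D ∈ GG1 N, Φ (D a) = D t := fun D hD => hΦ ⟨D, hD⟩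
  have hle : SkewS o.B ≤ W.map Φ := by
    intro X hX
    obtain ⟨D, hD, hDt⟩ := skew_mem' (a := res (GG1 N) t) o.al o.nd (fun x y => o.full x y) hX
    exact ⟨D a, hW D hD, by rw [hΦ' D hD]; exact hDt⟩
  have h2 := Submodule.finrank_mono hle
  have h3 := Submodule.finrank_map_le Φ W
  omega

include o in
theorem SFul.pos : 0 < finrank K (N t).V := by
  obtain ⟨x, hx⟩ := o.ne
  exact Module.finrank_pos_iff_exists_ne_zero.2 ⟨x, hx⟩

include o in
/-- **The criterion for symmetric forms.** -/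
theorem SFul.good_of_sym {a : ι} (f : Frm N a) (hsy : ∀ x y, f.B x y = f.B y x)
    (hnd : ∀ x, (∀ y, f.B x y = 0) → x = 0) (hdim : finrank K (N a).V ≤ finrank K (N t).V) :
    Good N t a := by
  refine o.good_of_lt (SkewS f.B) (fun D hD => f.skew hD) ?_
  have h1 := finrank_skew_le_sym hsy hnd
  have h2 := le_finrank_skew' o.al o.nd
  have h3 := o.pos
  rcases Nat.eq_zero_or_pos (finrank K (N a).V) with h4 | h4
  · rw [h4, Finset.range_zero, Finset.sum_empty] at h1
    have h5 := sum_lt (m := 1) (n := finrank K (N t).V + 1) (by omega) (by norm_num)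
    rw [Finset.sum_range_one] at h5
    omega
  · have h5 := sum_lt (Nat.lt_succ_of_le hdim) h4
    rw [Nat.succ_eq_add_one] at h5
    omega

include o in
/-- **The criterion for alternating forms.** -/
theorem SFul.good_of_alt {a : ι} (f : Frm N a) (hsy : ∀ x y, f.B x y = -f.B y x)
    (hnd : ∀ x, (∀ y, f.B x y = 0) → x = 0) (hdim : finrank K (N a).V < finrank K (N t).V) :
    Good N t a := by
  refine o.good_of_lt (SkewS f.B) (fun D hD => f.skew hD) ?_
  have h1 := finrank_skew_le_alt hsy hnd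
  have h2 := le_finrank_skew' o.al o.nd
  have h5 := sum_lt (Nat.succ_lt_succ hdim) (Nat.succ_pos _)
  rw [Nat.succ_eq_add_one, Nat.succ_eq_add_one] at h5
  omega

include o in
/-- **The criterion for nilpotent elements.** -/
theorem SFul.good_of_deg {J : ∀ i, (N i).V →ₗ[K] (N i).V} (hJ : J ∈ GG N) {a : ι} {n D : ℕ}
    (hn : (J t : Module.End K (N t).V) ^ n = 0) (hD : (J t : Module.End K (N t).V) ^ D ≠ 0)
    (hDa : (J a : Module.End K (N a).V) ^ D = 0) : Good N t a := by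
  classical
  -- the largest exponent
  obtain ⟨m, hm0, hm1, hDm⟩ : ∃ m, (J t : Module.End K (N t).V) ^ m ≠ 0 ∧
      (J t : Module.End K (N t).V) ^ (m + 1) = 0 ∧ D ≤ m := by
    have hex : ∃ m, (J t : Module.End K (N t).V) ^ m = 0 := ⟨n, hn⟩
    have h1 := Nat.find_spec hex
    have h2 : D < Nat.find hex := by
      by_contra h3
      push Not at h3
      obtain ⟨r, hr⟩ := Nat.exists_eq_add_of_le h3
      apply hD
      rw [hr, pow_add, h1, zero_mul]
    refine ⟨Nat.find hex - 1, Nat.find_min hex (by omega), ?_, by omega⟩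
    rw [Nat.sub_add_cancel (by omega)]
    exact h1
  have hma : (J a : Module.End K (N a).V) ^ m = 0 := by
    obtain ⟨r, rfl⟩ := Nat.exists_eq_add_of_le hDm
    rw [pow_add, hDa, zero_mul]
  obtain ⟨x, hx⟩ : ∃ x, ((J t : Module.End K (N t).V) ^ m) x ≠ 0 := by
    by_contra hcon
    push Not at hcon
    exact hm0 (LinearMap.ext hcon)
  -- the form and the operator
  have hns : ∃ y, o.B (((J t : Module.End K (N t).V) ^ m) x) y ≠ 0 := by
    by_contra hcon
    push Not at hcon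
    exact hx (o.nd _ hcon)
  obtain ⟨y, hy⟩ := hns
  obtain ⟨c, hc⟩ := o.der hJ
  have hc0 : c = 0 := der_nil o.al o.ne hn o.nd hc
  have hadj : ∀ j u v, o.B (((J t : Module.End K (N t).V) ^ j) u) v =
      (-1) ^ j * o.B u (((J t : Module.End K (N t).V) ^ j) v) := by
    intro j
    induction j with
    | zero => intro u v; simp
    | succ j ih =>
      intro u v
      have h2 := hc (((J t : Module.End K (N t).V) ^ j) u) v
      rw [hc0, zero_mul] at h2
      have e1 : ((J t : Module.End K (N t).V) ^ (j + 1)) u =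
          J t (((J t : Module.End K (N t).V) ^ j) u) := by
        rw [pow_succ', Module.End.mul_apply]
      have e2 : ((J t : Module.End K (N t).V) ^ (j + 1)) v =
          ((J t : Module.End K (N t).V) ^ j) (J t v) := by
        rw [pow_succ, Module.End.mul_apply]
      rw [e1, e2, eq_neg_of_add_eq_zero_left h2, ih, pow_succ]
      ring
  obtain ⟨E, hE, hEt⟩ := o.full x x
  obtain ⟨D', hD', h1⟩ := poly_AD hJ (Polynomial.X ^ (2 * m)) E hE
  simp only [map_pow, Polynomial.aeval_X] at h1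
  refine ⟨D', hD', ?_, ?_⟩
  · rw [h1 a]
    exact adL_zero hma _
  · rw [h1 t, adL_mid hm1, hEt]
    intro h2
    have h3 := LinearMap.congr_fun h2 y
    have hne : (((2 * m).choose m : K) * (-1) ^ m) ≠ 0 := by
      refine mul_ne_zero (Nat.cast_ne_zero.2 ?_) (pow_ne_zero _ (neg_ne_zero.2 one_ne_zero))
      exact (Nat.choose_pos (by omega)).ne'
    rw [LinearMap.smul_apply, LinearMap.zero_apply] at h3
    have h4 := (smul_eq_zero.1 h3).resolve_left hne
    rw [Module.End.mul_apply, Module.End.mul_apply, o_apply, ← add_smul, map_smul] at h4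
    rcases smul_eq_zero.1 h4 with h5 | h5
    · apply hy
      rw [hadj]
      have h6 : o.B x (((J t : Module.End K (N t).V) ^ m) y) = 0 := by
        have h7 : (2 : K) * o.B x (((J t : Module.End K (N t).V) ^ m) y) = 0 := by
          linear_combination h5
        exact (mul_eq_zero.1 h7).resolve_left two_ne_zero
      rw [h6, mul_zero]
    · exact hx h5

include o o' in
/-- symmetry -/
theorem SFul.good_symm (h : Good N t' t) : Good N t t' := by
  by_contra hng
  have h0 : ∀ D ∈ GG1 N, D t' = 0 → D t = 0 := by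
    intro D hD ha
    by_contra ht
    exact hng ⟨D, hD, ha, ht⟩
  -- everything on `t'` can be killed on `t`
  have h2 : ∀ X : Module.End K (N t').V, Skew o'.B X → ∃ D ∈ kil N {t}, D t' = X := fun X hX =>
    skew_mem' (a := res (kil N {t}) t') o'.al o'.nd (fun x y => by
      obtain ⟨D, hD, hDt, hDt'⟩ := o'.good_all h x y
      exact ⟨D, ⟨hD, fun a ha => by rw [Set.mem_singleton_iff.1 ha]; exact hDt⟩, hDt'⟩) hX
  obtain ⟨x, hx⟩ := o.ne
  obtain ⟨D1, hD1, hD1t⟩ := o.full x x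
  obtain ⟨D2, hD2, hD2t⟩ := h2 _ (o'.skew hD1)
  have h3 := h0 (D1 - D2) ((GG1 N).sub_mem hD1 hD2.1) (by rw [Pi.sub_apply, hD2t, sub_self])
  rw [Pi.sub_apply, hD2.2 t rfl, sub_zero, hD1t] at h3
  exact o_diag_ne o.nd hx h3

include o o' in
/-- **Members which are not independent are isomorphic.** -/
theorem SFul.good_or_iso [IsAlgClosed K] (hng : ¬Good N t t') :
    ∃ ψ : (N t').V →ₗ[K] (N t).V, ψ ≠ 0 ∧ ∃ ε : Γ → K, ∀ γ x,
      ψ ((N t').ρ γ x) = ε γ • (N t).ρ γ (ψ x) := by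
  have h0 : ∀ D ∈ GG1 N, D t' = 0 → D t = 0 := by
    intro D hD ha
    by_contra ht
    exact hng ⟨D, hD, ha, ht⟩
  -- the lifts
  have hlift : ∀ X : Module.End K (N t').V, Skew o'.B X → ∃ D ∈ GG1 N, D t' = X := fun X hX =>
    skew_mem' (a := res (GG1 N) t') o'.al o'.nd (fun x y => o'.full x y) hX
  have h0' : ∀ D ∈ GG1 N, D t = 0 → D t' = 0 := by
    intro D hD ha
    by_contra ht
    exact hng (o.good_symm o' ⟨D, hD, ha, ht⟩)
  let f : GG1 N →ₗ[K] Module.End K (N t').V :=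
    (LinearMap.proj t' : (∀ i, (N i).V →ₗ[K] (N i).V) →ₗ[K] _) ∘ₗ (GG1 N).subtype
  let g : GG1 N →ₗ[K] Module.End K (N t).V :=
    (LinearMap.proj t : (∀ i, (N i).V →ₗ[K] (N i).V) →ₗ[K] _) ∘ₗ (GG1 N).subtype
  obtain ⟨Φ, hΦ⟩ := exists_factor f g fun x hx => h0 x.1 x.2 hx
  have hΦ' : ∀ D ∈ GG1 N, Φ (D t') = D t := fun D hD => hΦ ⟨D, hD⟩
  have hΦs : ∀ X, Skew o'.B X → Skew o.B (Φ X) := by
    intro X hX
    obtain ⟨D, hD, rfl⟩ := hlift X hX
    rw [hΦ' D hD]
    exact o.skew hD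
  have hΦb : ∀ X Y, Skew o'.B X → Skew o'.B Y → Φ (br X Y) = br (Φ X) (Φ Y) := by
    intro X Y hX hY
    obtain ⟨D, hD, rfl⟩ := hlift X hX
    obtain ⟨D', hD', rfl⟩ := hlift Y hY
    rw [hΦ' D hD, hΦ' D' hD', ← brk_eq_br, hΦ' _ (brk_mem1 (GG1_le hD) (GG1_le hD')), brk_eq_br]
  have hΦi : ∀ X, Skew o'.B X → Φ X = 0 → X = 0 := by
    intro X hX hX0
    obtain ⟨D, hD, rfl⟩ := hlift X hX
    rw [hΦ' D hD] at hX0
    exact h0' D hD hX0
  have hΦo : ∀ x y, ∃ X, Skew o'.B X ∧ Φ X = oo o.B (-1) x y := by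
    intro x y
    obtain ⟨D, hD, hDt⟩ := o.full x y
    exact ⟨D t', o'.skew hD, by rw [hΦ' D hD, hDt]⟩
  obtain ⟨ψ, hψ0, hψ, hψu⟩ := exists_psi' (Φ := Φ) o.al o.nd o'.al o'.nd hΦs hΦb hΦi hΦo o'.ne
  refine ⟨ψ, hψ0, ?_⟩
  have h1 : ∀ γ : Γ, ∃ e : K, (N t).ρ γ⁻¹ ∘ₗ ψ ∘ₗ (N t').ρ γ = e • ψ := by
    intro γ
    refine hψu _ fun X hX x => ?_
    obtain ⟨D, hD, rfl⟩ := hlift X hX
    rw [hΦ' D hD]
    have h2 := hψ (cnj γ D t') (o'.skew (GG1_cnj hD γ)) ((N t').ρ γ x)
    rw [hΦ' _ (GG1_cnj hD γ), cnj_apply, cnj_apply, FRep.inv_left] at h2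
    rw [LinearMap.comp_apply, LinearMap.comp_apply, LinearMap.comp_apply, LinearMap.comp_apply,
      ← h2, FRep.inv_left]
  choose ε hε using h1
  refine ⟨ε, fun γ x => ?_⟩
  have h2 := LinearMap.congr_fun (hε γ) x
  rw [LinearMap.comp_apply, LinearMap.comp_apply, LinearMap.smul_apply] at h2
  rw [← map_smul, ← h2, FRep.inv_right]

include o o' in
theorem SFul.good_of_not_iso [IsAlgClosed K] (hiso : ¬IsoUpTo (N t') (N t)) : Good N t t' := by
  by_contra hng
  obtain ⟨ψ, hψ0, ε, hε⟩ := o.good_or_iso o' hng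
  apply hiso
  have hker : LinearMap.ker ψ = ⊥ := by
    refine (o'.si ⊤ inferInstance (LinearMap.ker ψ) fun g _ x hx => ?_).resolve_right fun h => ?_
    · rw [LinearMap.mem_ker] at hx ⊢
      rw [hε, hx, map_zero, smul_zero]
    · exact hψ0 (LinearMap.ker_eq_top.1 h)
  have hne : ∀ γ, ε γ ≠ 0 := by
    intro γ h0
    apply hψ0
    apply LinearMap.ext
    intro x
    have h1 := hε γ ((N t').ρ γ⁻¹ x)
    rw [FRep.inv_right, h0, zero_smul] at h1
    rw [h1, LinearMap.zero_apply]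
  have hrange : LinearMap.range ψ = ⊤ := by
    refine (o.si ⊤ inferInstance (LinearMap.range ψ) ?_).resolve_left fun h => ?_
    · rintro g - _ ⟨x, rfl⟩
      refine ⟨(ε g)⁻¹ • (N t').ρ g x, ?_⟩
      rw [map_smul, hε, smul_smul, inv_mul_cancel₀ (hne g), one_smul]
    · exact hψ0 (LinearMap.range_eq_bot.1 h)
  exact ⟨LinearEquiv.ofBijective ψ ⟨LinearMap.ker_eq_bot.1 hker, LinearMap.range_eq_top.1 hrange⟩,
    ε, hε⟩

end ful

section ex

variable [IsAlgClosed K]

open Pool.Agent.Y126.JB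

/-- **Jordan blocks of size one and of even size.** -/
theorem exists_even {fr : Frm N t} (al : ∀ x y, fr.B x y = -fr.B y x)
    (nd : ∀ x, (∀ y, fr.B x y = 0) → x = 0) (si : SI (N t).ρ) {μ : Γ →* K}
    (hμ : ∀ g, fr.μ g = μ g) {J : ∀ i, (N i).V →ₗ[K] (N i).V} (hJ : J ∈ GG N) {D : ℕ}
    (ht : Typ2 (J t) D) : ∃ o : SFul N t, o.toFrm = fr := by
  have ne : ∃ x : (N t).V, x ≠ 0 := by
    by_contra hcon
    push Not at hcon
    apply ht.triv
    ext z
    rw [hcon z]
    exact ⟨fun _ => Submodule.zero_mem _, fun _ => Submodule.zero_mem _⟩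
  obtain ⟨n, hn⟩ := ht.nil
  obtain ⟨c, hc⟩ := fr.der hJ
  have hc0 : c = 0 := der_nil al ne hn nd hc
  have hJL : (J t : Module.End K (N t).V) ∈ frL fr :=
    ⟨fun x y => by rw [hc, hc0, zero_mul], J, hJ, 0, by rw [zero_smul, add_zero]⟩
  refine ⟨⟨fr, al, nd, si, ne, fun x y => ?_⟩, rfl⟩
  have h1 := even_gen (L := frL fr) (ρ := (N t).ρ) (χ := μ) (alt_self al) nd
    (fun g x y => by rw [fr.eqv, hμ]) si (fun g Y hY => frL_conj fr g Y hY)
    (fun Y hY Z hZ => frL_br fr Y hY Z hZ) (fun Y hY => hY.1) hJL ht x y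
  obtain ⟨D, hD, a, h2⟩ := h1.2
  refine ⟨D, hD, a, ?_⟩
  rw [h2]
  congr 1
  apply LinearMap.ext
  intro z
  rw [Pool.Agent.H204R3.SP.SS_apply, o_apply, add_comm]

/-- **One Jordan block.** -/
theorem exists_single {fr : Frm N t} (al : ∀ x y, fr.B x y = -fr.B y x)
    (nd : ∀ x, (∀ y, fr.B x y = 0) → x = 0) (si : SI (N t).ρ)
    {J : ∀ i, (N i).V →ₗ[K] (N i).V} (hJ : J ∈ GG N) {D : ℕ}
    (hD0 : 0 < D) (hdim : finrank K (N t).V = D + 1)
    (heD1 : (J t : Module.End K (N t).V) ^ (D + 1) = 0)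
    (heD : (J t : Module.End K (N t).V) ^ D ≠ 0)
    (hF : D = 1 ∨ ∃ φ : Γ, ∀ a c : K, {b | ∃ x : (N t).V, x ≠ 0 ∧ (N t).ρ φ x = b • x} ≠
      {b | ∃ i ≤ D, b = a * c ^ i}) : ∃ o : SFul N t, o.toFrm = fr := by
  have ne : ∃ x : (N t).V, x ≠ 0 := by
    by_contra hcon
    push Not at hcon
    exact heD (LinearMap.ext fun z => hcon _)
  obtain ⟨c, hc⟩ := fr.der hJ
  have hc0 : c = 0 := der_nil al ne heD1 nd hc
  have hJL : (J t : Module.End K (N t).V) ∈ frL fr :=
    ⟨fun x y => by rw [hc, hc0, zero_mul], J, hJ, 0, by rw [zero_smul, add_zero]⟩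
  refine ⟨⟨fr, al, nd, si, ne, fun x y => ?_⟩, rfl⟩
  have h1 := single_gen (L := frL fr) (ρ := (N t).ρ) (alt_self al) nd
    si (fun g Y hY => frL_conj fr g Y hY)
    (fun Y hY Z hZ => frL_br fr Y hY Z hZ) (fun Y hY => hY.1) hJL hD0 hdim heD1 heD hF x y
  obtain ⟨D, hD, a, h2⟩ := h1.2
  refine ⟨D, hD, a, ?_⟩
  rw [h2]
  congr 1
  apply LinearMap.ext
  intro z
  rw [Pool.Agent.H204R3.SP.SS_apply, o_apply, add_comm]

end ex

end Pool.Agent.X292.SP
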