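import Pool.Agent.X292.SP.Sp

/-!
# Isomorphisms of symplectic Lie algebras
-/

set_option linter.unusedSectionVars false

namespace Pool.Agent.X292.SP

open Module Finset Function Pool.Agent.TH125.Gal Pool.Agent.Y127.G Pool.Agent.Y127.C

variable {K : Type} [Field K] [CharZero K] {T : Type} [AddCommGroup T] [Module K T]
  [FiniteDimensional K T] {B : T →ₗ[K] T →ₗ[K] K} {T' : Type} [AddCommGroup T'] [Module K T']
  [FiniteDimensional K T'] {B' : T' →ₗ[K] T' →ₗ[K] K}

/-- `S(x, x)` is extremal. -/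
theorem ext_diag (ha : ∀ x y, B x y = -B y x) {Y : Module.End K T} (hY : Skew B Y) (p : T) :
    br (oo B (-1) p p) (br (oo B (-1) p p) Y) = (-4 * B p (Y p)) • oo B (-1) p p := by
  have hS := o_skew ha p p
  rw [br_swap' Y, br_diag hY, ← neg_smul, br_smul, br_oo hS, o_self ha, oo_zero_right, add_zero,
    o_apply, ← two_smul K, smul_smul, oo_smul_left, smul_smul]
  congr 1
  ring

variable {Φ : Module.End K T' →ₗ[K] Module.End K T}

/-- the image of an extremal element -/
theorem exists_image [IsAlgClosed K] (ha : ∀ x y, B x y = -B y x)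
    (hnd : ∀ x, (∀ y, B x y = 0) → x = 0) (ha' : ∀ x y, B' x y = -B' y x)
    (hnd' : ∀ x, (∀ y, B' x y = 0) → x = 0)
    (hΦs : ∀ X, Skew B' X → Skew B (Φ X))
    (hΦb : ∀ X Y, Skew B' X → Skew B' Y → Φ (br X Y) = br (Φ X) (Φ Y))
    (hΦi : ∀ X, Skew B' X → Φ X = 0 → X = 0)
    (hΦo : ∀ x y, ∃ X, Skew B' X ∧ Φ X = oo B (-1) x y) {p' : T'} (hp' : p' ≠ 0) :
    ∃ p : T, p ≠ 0 ∧ Φ (oo B' (-1) p' p') = oo B (-1) p p := by
  have hE := o_skew ha' p' p'
  have hsurj : ∀ Z, Skew B Z → ∃ X, Skew B' X ∧ Φ X = Z := by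
    intro Z hZ
    refine skew_mem' (B := B) (a := (SkewS B').map Φ) ha hnd (fun x y => ?_) hZ
    exact hΦo x y
  obtain ⟨u, c, hu, hc, h1⟩ := extremal ha hnd (hΦs _ hE)
    (fun h => o_diag_ne hnd' hp' (hΦi _ hE h)) (fun Z hZ => by
      obtain ⟨X, hX, rfl⟩ := hsurj Z hZ
      refine ⟨-4 * B' p' (X p'), ?_⟩
      have h2 : Skew B' (br (oo B' (-1) p' p') X) := skew_br hE hX
      rw [← hΦb _ _ hE hX, ← hΦb _ _ hE h2, ext_diag ha' hX, map_smul])
  obtain ⟨z, hz⟩ := IsAlgClosed.exists_pow_nat_eq c (n := 2) (by norm_num)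
  have hz0 : z ≠ 0 := by
    rintro rfl
    apply hc
    rw [← hz]
    norm_num
  refine ⟨z • u, smul_ne_zero hz0 hu, ?_⟩
  rw [h1, oo_smul_left, oo_smul_right, smul_smul, ← hz, pow_two]

/-- **Isomorphisms of symplectic Lie algebras are induced by linear maps.** -/
theorem exists_psi' [IsAlgClosed K] (ha : ∀ x y, B x y = -B y x)
    (hnd : ∀ x, (∀ y, B x y = 0) → x = 0) (ha' : ∀ x y, B' x y = -B' y x)
    (hnd' : ∀ x, (∀ y, B' x y = 0) → x = 0)
    (hΦs : ∀ X, Skew B' X → Skew B (Φ X))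
    (hΦb : ∀ X Y, Skew B' X → Skew B' Y → Φ (br X Y) = br (Φ X) (Φ Y))
    (hΦi : ∀ X, Skew B' X → Φ X = 0 → X = 0)
    (hΦo : ∀ x y, ∃ X, Skew B' X ∧ Φ X = oo B (-1) x y) (hT' : ∃ x : T', x ≠ 0) :
    ∃ ψ : T' →ₗ[K] T, ψ ≠ 0 ∧ (∀ X, Skew B' X → ∀ y, Φ X (ψ y) = ψ (X y)) ∧
      ∀ ψ' : T' →ₗ[K] T, (∀ X, Skew B' X → ∀ y, Φ X (ψ' y) = ψ' (X y)) →
        ∃ e : K, ψ' = e • ψ := by
  -- the hyperbolic pair
  obtain ⟨p', hp'⟩ := hT'
  obtain ⟨x', hx'⟩ : ∃ x, B' p' x ≠ 0 := by
    by_contra hcon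
    push Not at hcon
    exact hp' (hnd' p' hcon)
  obtain ⟨q', hq⟩ : ∃ q', q' = (B' p' x')⁻¹ • x' := ⟨_, rfl⟩
  have hpq' : B' p' q' = 1 := by
    rw [hq, map_smul, smul_eq_mul, inv_mul_cancel₀ hx']
  have hqp' : B' q' p' = -1 := by rw [ha', hpq']
  have hpp' : B' p' p' = 0 := alt_self ha' p'
  have hqq' : B' q' q' = 0 := alt_self ha' q'
  have hq'0 : q' ≠ 0 := by
    rintro h
    rw [h, map_zero] at hpq'
    exact zero_ne_one hpq'
  clear hq
  have sE := o_skew ha' p' p'
  have sF := o_skew ha' q' q'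
  have sH := o_skew ha' p' q'
  obtain ⟨p, hp, hE⟩ := exists_image ha hnd ha' hnd' hΦs hΦb hΦi hΦo hp'
  obtain ⟨q₀, hq₀, hF⟩ := exists_image ha hnd ha' hnd' hΦs hΦb hΦi hΦo hq'0
  have hb2 : ∀ (x y : T), br (oo B (-1) x x) (oo B (-1) y y) = (4 * B x y) • oo B (-1) x y := by
    intro x y
    rw [br_diag (o_skew ha x x), o_apply, ← two_smul K, smul_smul, oo_smul_left, smul_smul]
    congr 1
    ring
  have hb2' : ∀ (x y : T'), br (oo B' (-1) x x) (oo B' (-1) y y) =
      (4 * B' x y) • oo B' (-1) x y := by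
    intro x y
    rw [br_diag (o_skew ha' x x), o_apply, ← two_smul K, smul_smul, oo_smul_left, smul_smul]
    congr 1
    ring
  have h4 : (4 : K) ≠ 0 := by norm_num
  have hH0 : Φ (oo B' (-1) p' q') = B p q₀ • oo B (-1) p q₀ := by
    have h1 := hΦb _ _ sE sF
    rw [hE, hF, hb2, hb2', hpq', mul_one, map_smul, mul_smul] at h1
    exact smul_right_injective _ h4 h1
  have hsq : B p q₀ * B p q₀ = 1 := by
    have h1 := hΦb _ _ sH sE
    rw [br_diag sH, o_apply, hqp', hpp', zero_smul, add_zero, oo_smul_left, map_smul, map_smul,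
      hE, hH0, br_smul_left, br_diag (o_skew ha p q₀), o_apply, alt_self ha p, zero_smul,
      add_zero, oo_smul_left, smul_smul, smul_smul, smul_smul] at h1
    have h2 : (2 * -1 - B p q₀ * (2 * B q₀ p)) • oo B (-1) p p = 0 := by
      rw [sub_smul, h1, mul_assoc, sub_self]
    have h3 := (smul_eq_zero.1 h2).resolve_right (o_diag_ne hnd hp)
    rw [ha q₀ p] at h3
    have h5 : (2 : K) * (B p q₀ * B p q₀ - 1) = 0 := by linear_combination h3
    exact sub_eq_zero.1 ((mul_eq_zero.1 h5).resolve_left two_ne_zero)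
  obtain ⟨q, hqd⟩ : ∃ q, q = B p q₀ • q₀ := ⟨_, rfl⟩
  have hpq : B p q = 1 := by rw [hqd, map_smul, smul_eq_mul, hsq]
  have hqp : B q p = -1 := by rw [ha, hpq]
  have hpp : B p p = 0 := alt_self ha p
  have hqq : B q q = 0 := alt_self ha q
  have hFq : Φ (oo B' (-1) q' q') = oo B (-1) q q := by
    rw [hF, hqd, oo_smul_left, oo_smul_right, smul_smul, hsq, one_smul]
  have hHq : Φ (oo B' (-1) p' q') = oo B (-1) p q := by
    rw [hH0, hqd, oo_smul_right]
  -- operators which kill `p'`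
  have kp : ∀ X, Skew B' X → X p' = 0 → Φ X p = 0 := by
    intro X hX h0
    have h1 := hΦb _ _ hX sE
    rw [br_diag hX, h0, oo_zero_left, smul_zero, map_zero, hE, br_diag (hΦs _ hX)] at h1
    exact o_left_zero hnd hp ((smul_eq_zero.1 h1.symm).resolve_left two_ne_zero)
  have hq0 : q ≠ 0 := by
    rintro h
    rw [h, map_zero] at hpq
    exact zero_ne_one hpq
  have kq : ∀ X, Skew B' X → X q' = 0 → Φ X q = 0 := by
    intro X hX h0
    have h1 := hΦb _ _ hX sF
    rw [br_diag hX, h0, oo_zero_left, smul_zero, map_zero, hFq, br_diag (hΦs _ hX)] at h1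
    exact o_left_zero hnd hq0 ((smul_eq_zero.1 h1.symm).resolve_left two_ne_zero)
  -- the operators with a given value at `p'`
  let Xo : T' →ₗ[K] Module.End K T' :=
    { toFun := fun y => -oo B' (-1) y q' - (2⁻¹ * B' y p') • oo B' (-1) q' q'
      map_add' := fun y z => by
        rw [oo_add_left, map_add, LinearMap.add_apply, mul_add, add_smul]
        abel
      map_smul' := fun c y => by
        rw [oo_smul_left, map_smul, LinearMap.smul_apply, smul_eq_mul, RingHom.id_apply, smul_sub,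
          smul_neg, smul_smul]
        congr 2
        ring }
  have hXo : ∀ y, Xo y = -oo B' (-1) y q' - (2⁻¹ * B' y p') • oo B' (-1) q' q' := fun y => rfl
  have sX : ∀ y, Skew B' (Xo y) := by
    intro y
    have h1 : Xo y ∈ SkewS B' := by
      rw [hXo]
      exact (SkewS B').sub_mem ((SkewS B').neg_mem (o_skew ha' y q')) ((SkewS B').smul_mem _ sF)
    exact h1
  have hXp : ∀ y, Xo y p' = y := by
    intro y
    rw [hXo, LinearMap.sub_apply, LinearMap.neg_apply, LinearMap.smul_apply, o_apply, o_apply,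
      hqp']
    module
  let ψ : T' →ₗ[K] T := (LinearMap.applyₗ p : Module.End K T →ₗ[K] T) ∘ₗ Φ ∘ₗ Xo
  have hψ : ∀ y, ψ y = Φ (Xo y) p := fun y => rfl
  clear_value Xo
  have hψX : ∀ X, Skew B' X → Φ X p = ψ (X p') := by
    intro X hX
    have h1 : Skew B' (X - Xo (X p')) := (SkewS B').sub_mem hX (sX _)
    have h2 := kp _ h1 (by rw [LinearMap.sub_apply, hXp, sub_self])
    rw [map_sub, LinearMap.sub_apply, sub_eq_zero] at h2
    rw [h2, hψ]
  clear_value ψ
  have hψp : ψ p' = p := by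
    have h1 := hψX _ sH
    rw [hHq, o_apply, o_apply, hqp', hqp, hpp', hpp, zero_smul, zero_smul, add_zero, add_zero,
      map_smul] at h1
    exact (smul_right_injective _ (neg_ne_zero.2 one_ne_zero) h1).symm
  -- the intertwined operators
  obtain ⟨m, hm⟩ : ∃ m : Submodule K (Module.End K T'), ∀ X, X ∈ m ↔
      (Skew B' X ∧ ∀ y, Φ X (ψ y) = ψ (X y)) := by
    refine ⟨{ carrier := {X | Skew B' X ∧ ∀ y, Φ X (ψ y) = ψ (X y)}
              zero_mem' := ⟨(SkewS B').zero_mem, fun y => by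
                rw [map_zero, LinearMap.zero_apply, LinearMap.zero_apply, map_zero]⟩
              add_mem' := ?_
              smul_mem' := ?_ }, fun X => Iff.rfl⟩
    · rintro X Y ⟨h1, h2⟩ ⟨h3, h4⟩
      refine ⟨(SkewS B').add_mem h1 h3, fun y => ?_⟩
      rw [map_add, LinearMap.add_apply, h2, h4, LinearMap.add_apply, map_add]
    · rintro c X ⟨h1, h2⟩
      refine ⟨(SkewS B').smul_mem c h1, fun y => ?_⟩
      rw [map_smul, LinearMap.smul_apply, h2, LinearMap.smul_apply, map_smul]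
  have mbr : ∀ X ∈ m, ∀ Y ∈ m, br X Y ∈ m := by
    intro X hX Y hY
    rw [hm] at hX hY ⊢
    refine ⟨skew_br hX.1 hY.1, fun y => ?_⟩
    rw [hΦb _ _ hX.1 hY.1]
    simp only [br, LinearMap.sub_apply, Module.End.mul_apply, map_sub]
    rw [hY.2, hX.2, hX.2, hY.2]
  have mP : ∀ X, Skew B' X → ∀ c : K, X p' = c • p' → X ∈ m := by
    intro X hX c hc
    rw [hm]
    refine ⟨hX, fun y => ?_⟩
    have h1 := hψX _ (skew_br hX (sX y))
    rw [hΦb _ _ hX (sX y)] at h1
    simp only [br, LinearMap.sub_apply, Module.End.mul_apply, map_sub] at h1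
    rw [hXp, ← hψ, hψX _ hX, hc, map_smul, map_smul, hψp, map_smul, map_smul, ← hψ, hXp] at h1
    exact sub_left_injective h1
  have mF : oo B' (-1) q' q' ∈ m := by
    rw [hm]
    refine ⟨sF, fun y => ?_⟩
    have hψq : ψ q' = q := by
      have h1 := hψX _ sF
      rw [hFq, o_apply, o_apply, hqp', hqp, ← add_smul, ← add_smul, map_smul] at h1
      exact (smul_right_injective _ (by norm_num : (-1 + -1 : K) ≠ 0) h1).symm
    have h1 : B q (ψ y) = B' q' y := by
      have h2 : Xo y q' = -(B' y q') • q' := by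
        rw [hXo, LinearMap.sub_apply, LinearMap.neg_apply, LinearMap.smul_apply, o_apply, o_apply,
          hqq']
        module
      have h3 : Skew B' (Xo y + B' y q' • oo B' (-1) p' q') :=
        (SkewS B').add_mem (sX y) ((SkewS B').smul_mem _ sH)
      have h4 := kq _ h3 (by
        rw [LinearMap.add_apply, LinearMap.smul_apply, h2, o_apply, hqq', hpq']
        module)
      rw [map_add, LinearMap.add_apply, map_smul, LinearMap.smul_apply, hHq, o_apply, hqq, hpq,
        zero_smul, zero_add, one_smul] at h4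
      have h5 := hΦs _ (sX y) q p
      rw [eq_neg_of_add_eq_zero_left h4, map_neg, map_smul, LinearMap.neg_apply,
        LinearMap.smul_apply, hqp, smul_eq_mul, ← hψ] at h5
      rw [ha' q' y]
      linear_combination h5
    rw [hFq, o_apply, o_apply, h1, ← add_smul, ← add_smul, map_smul, hψq]
  have m1 : ∀ x, oo B' (-1) p' x ∈ m := by
    intro x
    refine mP _ (o_skew ha' _ _) (B' x p') ?_
    rw [o_apply, hpp', zero_smul, add_zero]
  have msm : ∀ (c : K) (X : Module.End K T'), c ≠ 0 → c • X ∈ m → X ∈ m := by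
    intro c X hc hX
    have h1 := m.smul_mem c⁻¹ hX
    rwa [smul_smul, inv_mul_cancel₀ hc, one_smul] at h1
  have m2 : ∀ x, oo B' (-1) x q' ∈ m := by
    intro x
    have h1 := mbr _ (m1 x) _ mF
    rw [br_diag (o_skew ha' p' x), o_apply, hpq', one_smul, oo_add_left, oo_smul_left] at h1
    have h2 := msm _ _ two_ne_zero h1
    have h3 := m.sub_mem h2 (m.smul_mem (B' x q') (m1 q'))
    rwa [add_sub_cancel_left] at h3
  have m3 : ∀ x y, oo B' (-1) x y ∈ m := by
    intro x y
    have h1 := mbr _ (m1 x) _ (m2 y)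
    rw [br_oo (o_skew ha' p' x), o_apply p' x q', hpq', one_smul, oo_add_right, oo_smul_right]
      at h1
    have h2 := m.sub_mem h1 (m2 (oo B' (-1) p' x y))
    rw [add_sub_cancel_left] at h2
    have h3 := m.sub_mem h2 (m.smul_mem (B' x q') (m1 y))
    rw [← o_swap p' y, add_sub_cancel_left] at h3
    rwa [← o_swap] at h3
  refine ⟨ψ, ?_, ?_, ?_⟩
  · rintro h
    rw [h, LinearMap.zero_apply] at hψp
    exact hp hψp.symm
  · intro X hX
    exact ((hm X).1 (skew_mem' ha' hnd' m3 hX)).2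
  · intro ψ' hψ'
    obtain ⟨z, hz⟩ : ∃ z, z = ψ' p' := ⟨_, rfl⟩
    have h1 := hψ' _ sH p'
    rw [hHq, o_apply p' q' p', hqp', hpp', zero_smul, add_zero, map_smul, ← hz, o_apply] at h1
    have h2 : B p z = 0 := by
      have h3 := congrArg (B p) h1
      rw [map_add, map_smul, map_smul, map_smul, hpp, hpq, smul_zero, zero_add, smul_eq_mul,
        smul_eq_mul, mul_one] at h3
      have h5 : (2 : K) * B p z = 0 := by linear_combination h3
      exact (mul_eq_zero.1 h5).resolve_left two_ne_zero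
    rw [h2, zero_smul, add_zero] at h1
    refine ⟨-B q z, LinearMap.ext fun y => ?_⟩
    have h3 := hψ' _ (sX y) p'
    rw [hXp, ← hz] at h3
    rw [← h3, LinearMap.smul_apply, hψ, ← map_smul, neg_smul, h1, neg_one_smul, neg_neg]

end Pool.Agent.X292.SP
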