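import Pool.Agent.Y127.C.Ful

/-!
# The symplectic Lie algebra: simplicity, extremal elements, isomorphisms
-/

set_option linter.unusedSectionVars false

namespace Pool.Agent.X292.SP

open Module Finset Function Pool.Agent.TH125.Gal Pool.Agent.Y127.G Pool.Agent.Y127.C

section lin

variable {K : Type} [Field K] [CharZero K] {T : Type} [AddCommGroup T] [Module K T]
  {B : T →ₗ[K] T →ₗ[K] K}

theorem o_apply (x y z : T) : oo B (-1) x y z = B y z • x + B x z • y := by
  rw [oo_apply]
  module

theorem o_swap (x y : T) : oo B (-1) y x = oo B (-1) x y := by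
  apply LinearMap.ext
  intro z
  rw [o_apply, o_apply, add_comm]

theorem alt_self (ha : ∀ x y, B x y = -B y x) (x : T) : B x x = 0 := by
  have h1 := ha x x
  have h2 : (2 : K) * B x x = 0 := by linear_combination h1
  exact (mul_eq_zero.1 h2).resolve_left two_ne_zero

theorem o_skew (ha : ∀ x y, B x y = -B y x) (x y : T) : Skew B (oo B (-1) x y) :=
  oo_skew (by norm_num) (fun x y => by rw [neg_one_mul]; exact ha x y) x y

theorem o_self (ha : ∀ x y, B x y = -B y x) (x : T) : oo B (-1) x x x = 0 := by
  rw [o_apply, alt_self ha, zero_smul, zero_add]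

/-- the commutator with `S(x, x)` -/
theorem br_diag {A : Module.End K T} (hA : Skew B A) (x : T) :
    br A (oo B (-1) x x) = (2 : K) • oo B (-1) (A x) x := by
  rw [br_oo hA, o_swap (A x) x, two_smul]

theorem br_swap' (A X : Module.End K T) : br X A = -br A X := by
  rw [br, br]
  abel

theorem o_left_zero (hnd : ∀ x, (∀ y, B x y = 0) → x = 0) {v p : T}
    (hp : p ≠ 0) (h : oo B (-1) v p = 0) : v = 0 := by
  obtain ⟨z, hz⟩ : ∃ z, B p z ≠ 0 := by
    by_contra hcon
    push Not at hcon
    exact hp (hnd p hcon)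
  have h1 := LinearMap.congr_fun h z
  rw [o_apply, LinearMap.zero_apply] at h1
  have h2 : v = (-(B p z)⁻¹ * B v z) • p := by
    have h3 : B p z • v = -(B v z • p) := eq_neg_of_add_eq_zero_left h1
    rw [mul_smul, neg_smul, ← smul_neg, ← h3, smul_smul, inv_mul_cancel₀ hz, one_smul]
  obtain ⟨c, hc⟩ : ∃ c : K, v = c • p := ⟨_, h2⟩
  rw [hc, oo_smul_left] at h
  have h4 := LinearMap.congr_fun h z
  rw [LinearMap.smul_apply, o_apply, LinearMap.zero_apply, ← two_smul K, smul_smul, smul_smul]
    at h4
  rcases smul_eq_zero.1 h4 with h5 | h5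
  · have h6 : c = 0 := by
      have h7 : (2 * B p z) * c = 0 := by linear_combination h5
      exact (mul_eq_zero.1 h7).resolve_left (mul_ne_zero two_ne_zero hz)
    rw [hc, h6, zero_smul]
  · exact absurd h5 hp

theorem o_diag_ne (hnd : ∀ x, (∀ y, B x y = 0) → x = 0) {p : T} (hp : p ≠ 0) :
    oo B (-1) p p ≠ 0 := fun h => hp (o_left_zero hnd hp h)

/-- a skew operator which is not zero -/
theorem exists_diag (ha : ∀ x y, B x y = -B y x) (hnd : ∀ x, (∀ y, B x y = 0) → x = 0)
    {A : Module.End K T} (hA : Skew B A) (hA0 : A ≠ 0) : ∃ u, B (A u) u ≠ 0 := by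
  by_contra hcon
  push Not at hcon
  apply hA0
  apply LinearMap.ext
  intro x
  refine hnd _ fun y => ?_
  have h1 := hcon (x + y)
  rw [map_add, map_add, map_add, LinearMap.add_apply, LinearMap.add_apply, hcon x, hcon y] at h1
  have h2 := hA x y
  have h3 := ha x (A y)
  have h4 : (2 : K) * B (A x) y = 0 := by linear_combination h1 + h2 - h3
  exact (mul_eq_zero.1 h4).resolve_left two_ne_zero

/-- **The symplectic Lie algebra is simple.** -/
theorem simple_sp (ha : ∀ x y, B x y = -B y x) (hnd : ∀ x, (∀ y, B x y = 0) → x = 0)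
    {a : Submodule K (Module.End K T)} (hsk : ∀ A ∈ a, Skew B A)
    (hid : ∀ u v, ∀ A ∈ a, br (oo B (-1) u v) A ∈ a) {A : Module.End K T} (hA : A ∈ a)
    (hA0 : A ≠ 0) (x y : T) : oo B (-1) x y ∈ a := by
  obtain ⟨u, hu⟩ := exists_diag ha hnd (hsk A hA) hA0
  obtain ⟨v, hv⟩ : ∃ v, v = A u := ⟨_, rfl⟩
  rw [← hv] at hu
  have hu' : B u v ≠ 0 := by rw [ha]; exact neg_ne_zero.2 hu
  have smul_mem' : ∀ (c : K) (X : Module.End K T), c ≠ 0 → c • X ∈ a → X ∈ a := by
    intro c X hc hX
    have h1 := a.smul_mem c⁻¹ hX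
    rwa [smul_smul, inv_mul_cancel₀ hc, one_smul] at h1
  have h1 : oo B (-1) v u ∈ a := by
    have h2 := hid u u A hA
    rw [br_swap', br_diag (hsk A hA), ← hv, ← neg_smul] at h2
    exact smul_mem' _ _ (neg_ne_zero.2 two_ne_zero) h2
  have h2 : oo B (-1) u u ∈ a := by
    have h3 := hid u u _ h1
    rw [br_oo (o_skew ha u u), o_self ha, oo_zero_right, add_zero, o_apply, ← add_smul,
      oo_smul_left] at h3
    refine smul_mem' _ _ ?_ h3
    rw [← two_mul]
    exact mul_ne_zero two_ne_zero hu'
  have h3 : ∀ z, oo B (-1) z u ∈ a := by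
    intro z
    have h4 := hid z v _ h2
    rw [br_diag (o_skew ha z v), o_apply, oo_add_left, oo_smul_left, oo_smul_left] at h4
    have h5 := smul_mem' _ _ two_ne_zero h4
    have h6 := a.sub_mem h5 (a.smul_mem (B z u) h1)
    rw [add_sub_cancel_right] at h6
    exact smul_mem' _ _ hu h6
  have h4 : ∀ z w, B v u • oo B (-1) z w + B w u • oo B (-1) z v ∈ a := by
    intro z w
    have h5 := hid w v _ (h3 z)
    rw [br_oo (o_skew ha w v), o_apply w v u, oo_add_right, oo_smul_right, oo_smul_right] at h5
    have h6 := a.sub_mem h5 (h3 (oo B (-1) w v z))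
    rwa [add_sub_cancel_left] at h6
  have h5 : ∀ z, oo B (-1) z v ∈ a := by
    intro z
    have h6 := h4 z v
    rw [← add_smul, ← two_mul] at h6
    exact smul_mem' _ _ (mul_ne_zero two_ne_zero hu) h6
  have h6 := a.sub_mem (h4 x y) (a.smul_mem (B y u) (h5 x))
  rw [add_sub_cancel_right] at h6
  exact smul_mem' _ _ hu h6

/-- two members of the symplectic Lie algebra which do not commute -/
theorem exists_br_ne' (ha : ∀ x y, B x y = -B y x) (hnd : ∀ x, (∀ y, B x y = 0) → x = 0)
    (hT : ∃ x : T, x ≠ 0) : ∃ x y, br (oo B (-1) x x) (oo B (-1) y y) ≠ 0 := by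
  obtain ⟨x, hx⟩ := hT
  obtain ⟨y, hy⟩ : ∃ y, B x y ≠ 0 := by
    by_contra hcon
    push Not at hcon
    exact hx (hnd x hcon)
  refine ⟨x, y, fun h => ?_⟩
  have hy0 : y ≠ 0 := fun h0 => hy (by rw [h0, map_zero])
  rw [br_diag (o_skew ha x x), o_apply, ← two_smul K, smul_smul, oo_smul_left, smul_smul] at h
  rcases smul_eq_zero.1 h with h1 | h1
  · exact mul_ne_zero two_ne_zero (mul_ne_zero two_ne_zero hy) h1
  · exact hx (o_left_zero hnd hy0 h1)

/-- **Extremal elements have rank one.** -/
theorem extremal (ha : ∀ x y, B x y = -B y x) (hnd : ∀ x, (∀ y, B x y = 0) → x = 0)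
    {X : Module.End K T} (hX : Skew B X) (hX0 : X ≠ 0)
    (hext : ∀ Y, Skew B Y → ∃ c : K, br X (br X Y) = c • X) :
    ∃ (u : T) (c : K), u ≠ 0 ∧ c ≠ 0 ∧ X = c • oo B (-1) u u := by
  obtain ⟨y, hb⟩ := exists_diag ha hnd hX hX0
  obtain ⟨c, hc⟩ := hext _ (o_skew ha y y)
  rw [br_diag hX, br_smul, br_oo hX] at hc
  obtain ⟨u, hu⟩ : ∃ u, u = X y := ⟨_, rfl⟩
  obtain ⟨v, hv⟩ : ∃ v, v = X u := ⟨_, rfl⟩
  rw [← hu] at hb
  rw [← hu, ← hv] at hc
  have hyu : B y u = -B u y := ha y u
  have hvy : B v y = 0 := by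
    have h1 := hX u y
    rw [← hv, ← hu, alt_self ha, add_zero] at h1
    exact h1
  have hu0 : u ≠ 0 := fun h => hb (by rw [h, map_zero, LinearMap.zero_apply])
  have e1 := LinearMap.congr_fun hc y
  have e2 := LinearMap.congr_fun hc u
  simp only [LinearMap.smul_apply, LinearMap.add_apply, o_apply] at e1 e2
  rw [← hu, alt_self ha y, hvy, zero_smul, zero_smul, zero_add, zero_add, ← add_smul,
    smul_smul] at e1
  have hc4 : c = 4 * B u y := by
    have h1 : (2 * (B u y + B u y) - c) • u = 0 := by rw [sub_smul, e1, sub_self]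
    have h2 := (smul_eq_zero.1 h1).resolve_right hu0
    linear_combination -h2
  rw [← hv, hyu, alt_self ha u, zero_smul, zero_add, add_zero, hc4] at e2
  have e3 : (3 * B u y) • v = B v u • y := by
    have h1 : (6 * B u y) • v = (2 * B v u) • y := by
      have h2 : (4 * B u y) • v = (2 : K) • (-B u y • v + B v u • y) := by rw [← e2]
      rw [smul_add, smul_smul, smul_smul] at h2
      have h3 : (6 * B u y) • v = (4 * B u y) • v + (2 * B u y) • v := by
        rw [← add_smul]
        congr 1
        ring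
      rw [h3, h2]
      module
    have h4 : (2 : K) • ((3 * B u y) • v - B v u • y) = 0 := by
      rw [smul_sub, smul_smul, smul_smul, sub_eq_zero, ← h1]
      congr 1
      ring
    exact sub_eq_zero.1 ((smul_eq_zero.1 h4).resolve_left two_ne_zero)
  have e4 : B v u = 0 := by
    have h1 := congrArg (fun z => B z u) e3
    simp only [map_smul, LinearMap.smul_apply, smul_eq_mul] at h1
    rw [hyu] at h1
    have h2 : (4 * B u y) * B v u = 0 := by linear_combination h1
    exact (mul_eq_zero.1 h2).resolve_left (mul_ne_zero (by norm_num) hb)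
  have e5 : v = 0 := by
    rw [e4, zero_smul] at e3
    exact (smul_eq_zero.1 e3).resolve_left (mul_ne_zero (by norm_num) hb)
  rw [e5, oo_zero_left, zero_add, hc4] at hc
  refine ⟨u, (4 * B u y)⁻¹ * 2, hu0, mul_ne_zero (inv_ne_zero (mul_ne_zero (by norm_num) hb))
    two_ne_zero, ?_⟩
  rw [mul_smul, hc, smul_smul, inv_mul_cancel₀ (mul_ne_zero (by norm_num) hb), one_smul]

end lin

section findim

variable {K : Type} [Field K] [CharZero K] {T : Type} [AddCommGroup T] [Module K T]
  [FiniteDimensional K T] {B : T →ₗ[K] T →ₗ[K] K}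

/-- The operators `S(x, y)` span the symplectic Lie algebra. -/
theorem skew_mem' (ha : ∀ x y, B x y = -B y x) (hnd : ∀ x, (∀ y, B x y = 0) → x = 0)
    {a : Submodule K (Module.End K T)} (hall : ∀ x y, oo B (-1) x y ∈ a)
    {Y : Module.End K T} (hY : Skew B Y) : Y ∈ a := by
  classical
  let b := Module.finBasis K T
  have hinj : Function.Injective B := by
    rw [← LinearMap.ker_eq_bot, LinearMap.ker_eq_bot']
    intro x hx
    exact hnd x fun y => by rw [hx, LinearMap.zero_apply]
  have hsurj : Function.Surjective (B : T →ₗ[K] Module.Dual K T) :=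
    (LinearMap.injective_iff_surjective_of_finrank_eq_finrank
      (Subspace.dual_finrank_eq (K := K) (V := T)).symm).1 hinj
  choose b' hb' using fun i => hsurj (b.coord i)
  have h1 : ∀ x, ∑ i, B (b' i) x • b i = x := by
    intro x
    conv_rhs => rw [← b.sum_repr x]
    exact Finset.sum_congr rfl fun i _ => by rw [hb', Basis.coord_apply]
  have h2 : ∀ y, ∑ i, B (b i) y • b' i = -y := by
    intro y
    rw [← sub_eq_zero]
    refine hnd _ fun z => ?_
    have h3 := congrArg (fun x => B x y) (h1 z)
    simp only [map_sum, map_smul, LinearMap.sum_apply, LinearMap.smul_apply, smul_eq_mul] at h3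
    simp only [map_sub, map_sum, map_smul, map_neg, LinearMap.sub_apply, LinearMap.neg_apply,
      LinearMap.sum_apply, LinearMap.smul_apply, smul_eq_mul]
    rw [← ha z y, ← h3, sub_eq_zero]
    exact Finset.sum_congr rfl fun i _ => mul_comm _ _
  have h3 : (2 : K) • Y = ∑ i, oo B (-1) (Y (b i)) (b' i) := by
    apply LinearMap.ext
    intro x
    rw [LinearMap.sum_apply]
    simp only [o_apply, Finset.sum_add_distrib, LinearMap.smul_apply]
    have h4 : ∑ i, B (b' i) x • Y (b i) = Y x := by
      conv_rhs => rw [← h1 x]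
      rw [map_sum]
      exact Finset.sum_congr rfl fun i _ => (map_smul _ _ _).symm
    have h5 : ∑ i, B (Y (b i)) x • b' i = Y x := by
      have h6 := h2 (Y x)
      rw [← neg_eq_iff_eq_neg, ← Finset.sum_neg_distrib] at h6
      rw [← h6]
      refine Finset.sum_congr rfl fun i _ => ?_
      rw [← neg_smul, eq_neg_of_add_eq_zero_left (hY (b i) x)]
    rw [h4, h5, two_smul]
  have h4 : (2 : K) • Y ∈ a := by
    rw [h3]
    exact Submodule.sum_mem _ fun i _ => hall _ _
  have h5 := a.smul_mem (2⁻¹ : K) h4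
  rwa [smul_smul, inv_mul_cancel₀ two_ne_zero, one_smul] at h5

theorem le_finrank_skew' (ha : ∀ x y, B x y = -B y x) (hnd : ∀ x, (∀ y, B x y = 0) → x = 0) :
    ∑ i ∈ range (finrank K T + 1), i ≤ finrank K (SkewS B) := by
  classical
  let b := Module.finBasis K T
  rw [← card_le]
  have hinj : Function.Injective B := by
    rw [← LinearMap.ker_eq_bot, LinearMap.ker_eq_bot']
    intro x hx
    exact hnd x fun y => by rw [hx, LinearMap.zero_apply]
  have hsurj : Function.Surjective (B : T →ₗ[K] Module.Dual K T) :=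
    (LinearMap.injective_iff_surjective_of_finrank_eq_finrank
      (Subspace.dual_finrank_eq (K := K) (V := T)).symm).1 hinj
  choose b' hb' using fun i => hsurj (b.coord i)
  have hbb : ∀ i j, B (b j) (b' i) = if j = i then -1 else 0 := by
    intro i j
    rw [ha, hb', Basis.coord_apply, b.repr_self, Finsupp.single_apply]
    split_ifs <;> simp
  let v : {x : Fin (finrank K T) × Fin (finrank K T) // x.1 ≤ x.2} → SkewS B := fun x =>
    ⟨oo B (-1) (b x.1.1) (b x.1.2), o_skew ha _ _⟩
  have hv : LinearIndependent K v := by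
    rw [Fintype.linearIndependent_iff]
    intro g hg x
    have h1 : ∑ y, g y • oo B (-1) (b y.1.1) (b y.1.2) = 0 := by
      have h2 := congrArg Subtype.val hg
      rw [AddSubmonoidClass.coe_finsetSum] at h2
      exact h2
    have h2 := congrArg (fun A : Module.End K T => B (A (b' x.1.2)) (b' x.1.1)) h1
    simp only [LinearMap.sum_apply, LinearMap.smul_apply, map_sum, map_smul, o_apply, map_add,
      LinearMap.add_apply, smul_eq_mul, hbb, LinearMap.zero_apply, map_zero] at h2
    rw [Finset.sum_eq_single x] at h2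
    · rw [if_pos rfl, if_pos rfl] at h2
      split_ifs at h2
      · have h3 : (2 : K) * g x = 0 := by linear_combination h2
        exact (mul_eq_zero.1 h3).resolve_left two_ne_zero
      · linear_combination h2
      · linear_combination h2
      · linear_combination h2
    · intro y _ hyx
      have k1 : ((if y.1.2 = x.1.2 then (-1 : K) else 0) * if y.1.1 = x.1.1 then -1 else 0) = 0 := by
        by_cases h3 : y.1.2 = x.1.2
        · by_cases h4 : y.1.1 = x.1.1
          · exact absurd (Subtype.ext (Prod.ext h4 h3)) hyx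
          · rw [if_neg h4, mul_zero]
        · rw [if_neg h3, zero_mul]
      have k2 : ((if y.1.1 = x.1.2 then (-1 : K) else 0) * if y.1.2 = x.1.1 then -1 else 0) = 0 := by
        by_cases h3 : y.1.1 = x.1.2
        · by_cases h4 : y.1.2 = x.1.1
          · exfalso
            have h5 := y.2
            have h6 := x.2
            rw [h3, h4] at h5
            have h7 : x.1.1 = x.1.2 := le_antisymm h6 h5
            exact hyx (Subtype.ext (Prod.ext (h3.trans h7.symm) (h4.trans h7)))
          · rw [if_neg h4, mul_zero]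
        · rw [if_neg h3, zero_mul]
      rw [k1, k2, add_zero, mul_zero]
    · exact fun h => absurd (Finset.mem_univ x) h
  exact hv.fintype_card_le_finrank

end findim

end Pool.Agent.X292.SP
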